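import Pool.Agent.Lib.MP_6ac48b_co.CoxMain

/-!
# MP_6ac48b_co, Q1: the universal polytopes of Coxeter type and their covers

Let `P` be a regular polytope of rank `m` (finite or infinite), `ρ_0, …, ρ_{m-1}` the distinguished
generators of its group `Γ(P) = Aut P`, and let `W` be the Coxeter group of a string diagram with
labels `p_0, …, p_{m-2}` (`p_i ≥ 2` or `∞`; `0` stands for `∞`), together with a homomorphism
`π : Γ(P) → W`, `ρ_i ↦ s_i`.

* If `π` is an isomorphism, then `P` is the universal regular polytope `{p_0, …, p_{m-2}}`.  For
  `m ≥ 3` these are exactly the universal polytopes `{P_1, P_2}` with `P_1`, `P_2` of the same kind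
  (McMullen-Schulte, Abstract Regular Polytopes; not formalised here); for `m = 3`, where `P_1`
  and `P_2` are polygons, they are all universal polytopes `{P_1, P_2}`.  The theorem determines which
  of them have only acoptic Petrie schemes, for all orderings `i_1, …, i_m` and not only for the
  natural one: exactly those for which the Coxeter elements of all components of the string diagram
  have the same order (the Coxeter number of the component, `∞` for the infinite ones).  In
  particular the answer is yes whenever all `p_i ≥ 3` (one component): all regular tessellations of
  spherical, Euclidean and hyperbolic spaces and all `{p_0, …, p_{m-2}}` which are not geometric; with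
  some `p_i = 2` it is yes for instance for `{3, 2, 3}`, `{3, 3, 2, 4}`, and no for `{3, 2}`,
  `{3, 2, 4}`.
* If `π` is not injective (`P` covers, for example, a polytope of Coxeter type, or just has a Schläfli
  type whose entries are multiples of the `p_i`), then `P` has only acoptic Petrie schemes as soon
  as all components of the diagram have the same Coxeter number `h` and all products
  `ρ_{i_1} ⋯ ρ_{i_m}` have order `h`; if `h = ∞`, the second condition is empty.  So `P`, finite or
  not, universal or not, has only acoptic Petrie schemes whenever `Γ(P)` maps onto a string Coxeter
  group with only infinite components.

Idea of the proof.  A proper face of rank `i` appears in two flags of a Petrie scheme if and only if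
some power `c^n`, `n > 0`, of some product `c = ρ_{i_1} ⋯ ρ_{i_m}` (of the same or a rotated ordering)
lies in the subgroup generated by the `ρ_j`, `j ≠ i`; so `π(c)^n` fixes the fundamental weight `ω_i`.
Let `x > 0` be the Perron eigenvector (eigenvalue `l`) of the component of the diagram and `θ` the
heights given by the ordering.  For every solution `f` of `f(t+1) + f(t-1) = l f(t)`, `π(c)` shifts
the vector with coordinates `x_k f(θ_k)` of the geometric representation by two steps.  So, if a
power fixes one `ω_i`, all solutions `f` have period `2 n`, therefore the power fixes a vector of
the open fundamental chamber, and is trivial on the component by the theorem of Tits.  Neither the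
classification of the Coxeter groups nor the reducedness of the powers of Coxeter elements is used.

Related work: G. Williams, Petrie schemes (Canad. J. Math. 57, 2005), where the question is posed and
the convex regular polytopes and Euclidean tessellations are treated; D. Speyer, Powers of Coxeter
elements in infinite groups are reduced (Proc. AMS 137, 2009), which implies the statement for the
connected infinite diagrams with `π` bijective.  Beyond them: disconnected diagrams, the exact
criterion in both directions, and the polytopes which cover one of Coxeter type.
-/

set_option autoImplicit false

namespace Pool.Agent.Results.MP_6ac48b_co.CoxeterType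

open Petrie

/-- Let `P` (the poset `F` of proper faces with the rank function `rk`) be a regular polytope of
rank `m`, with base flag `Φ` and distinguished generators `ρ`, let `W` be the Coxeter group of the
string diagram with the labels `p`, and `π : Aut P → W` a homomorphism with `π (ρ i) = s_i`.

* If the Coxeter elements of all components of the diagram have the same order `h`, and the `h`-th
  power of `ρ_{i_1} ⋯ ρ_{i_m}` is trivial for all orderings (no condition if the Coxeter elements
  have infinite order, `orderOf = 0`), then every Petrie scheme of `P` is acoptic.
* If `π` is injective, then every Petrie scheme of `P` is acoptic if and only if the Coxeter elements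
  of all components of the diagram have the same order. -/
theorem result {m : ℕ} {F : Type*} [PartialOrder F] {rk : F → Fin m} (hP : IsPolytope rk)
    (hreg : Petrie.IsRegular rk) (Φ : Flg rk) (ρ : Fin m → F ≃o F) (hρ : IsGens Φ ρ)
    (p : ℕ → ℕ) (hp : ∀ i, p i ≠ 1) {W : Type*} [Group W]
    (cs : CoxeterSystem (strMat m p hp) W) (π : (F ≃o F) →* W)
    (hπ : ∀ i, π (ρ i) = cs.simple i) :
    ((∀ i j, orderOf (coxElt cs i) = orderOf (coxElt cs j)) →
      (∀ L, IsOrdering L → ∀ i, listProd ρ L ^ orderOf (coxElt cs i) = 1) → AllAcoptic hP) ∧
    (Function.Injective π →
      (AllAcoptic hP ↔ ∀ i j, orderOf (coxElt cs i) = orderOf (coxElt cs j))) :=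
  cox_main cs π hP hreg hρ hπ

end Pool.Agent.Results.MP_6ac48b_co.CoxeterType
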