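import Pool.Agent.Lib.MP_6ac48b_co.Join

/-!
# MP_6ac48b_co, Q1: universal polytopes with an entry 2 in the Schläfli symbol

Let `K` and `L` be abstract polytopes of ranks `a, b ≥ 1` (finite or infinite, regular or not). The
ordinal sum `K + L` is the polytope of rank `a + b` whose proper faces are those of `K` and those of
`L`, every proper face of `K` lying below every proper face of `L`. For regular `K` and `L` with the
Schläfli symbols `{p_1, ..}` and `{q_1, ..}` it is the regular polytope of type
`{p_1, .., 2, q_1, ..}` with the group `Γ(K) × Γ(L)`, and every regular polytope with an entry `2` in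
its Schläfli symbol is of this form. All these polytopes are universal: for `n + 1 = a + b ≥ 3`,

  `K + L = {P_1, P_2}`, `P_1 = K + (facet of L)`, `P_2 = (vertex-figure of K) + L`

(for `b = 1` resp. `a = 1` one of the two summands is absent), because the relations of `Γ(K)`, those
of `Γ(L)`, and the commutation of the two sets of generators all hold in `Γ(P_1)` or `Γ(P_2)`, except
for `(ρ_0 ρ_n)² = 1`. (These standard facts are not formalised.) So the theorem reduces Q1 for all
pairs `P_1`, `P_2` with an entry `2` to polytopes of smaller rank, which need not be universal:

* all Petrie schemes (all orderings) of `K + L` are acoptic if and only if those of `K` and of `L`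
  are, and all Petrie schemes of `K` and of `L` have the same length; no regularity is needed;
* if `K` and `L` are regular, `K + L` is regular and the condition on the lengths is: the products
  `ρ_0 ρ_1 ⋯ ρ_{a-1}` and `σ_0 σ_1 ⋯ σ_{b-1}` have the same order (all other orderings give
  conjugate products);
* for every regular polytope `K`, the universal polytope `K + K` has only acoptic Petrie schemes if
  and only if `K` has. So Q1 contains, in rank `2 a`, the same question for ALL regular polytopes of
  rank `a`, universal or not: there is no answer to Q1 in terms of universal polytopes alone.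

For instance no `{P_1, P_2}` with an entry `2` at one of its ends (`a = 1` or `b = 1`, where all
Petrie schemes of one summand have length `2`) and another entry different from `2` has only acoptic
Petrie schemes, and for a regular map `K` of type `{p, q}` the polytope `{p, q, 2, r}` is one of
them if and only if `K` has only acoptic Petrie schemes and Petrie polygons of length `r`.

Proof: a flag of `K + L` is a pair of flags, adjacency acts on one of the two entries, and a Petrie
scheme of `K + L` is the pair of a Petrie scheme of `K` and one of `L`, for the two restricted
orderings; every pair occurs.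
-/

set_option autoImplicit false

namespace Pool.Agent.Results.MP_6ac48b_co.EntryTwo

open Petrie

/-- Let `K` (proper faces `F`, rank function `rk`) and `L` (proper faces `G`, rank function `sk`) be
abstract polytopes of ranks `a, b ≥ 1`. Then the ordinal sum `F ⊕ₗ G` with the rank function
`joinRk rk sk` is an abstract polytope `K + L` of rank `a + b`, and:

* every Petrie scheme of `K + L` is acoptic iff every Petrie scheme of `K` is acoptic, every Petrie
  scheme of `L` is acoptic and every Petrie scheme of `K` has the same length as every Petrie scheme
  of `L` (two entries of the one sequence are equal iff those of the other are);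
* if `K` and `L` are regular, then `K + L` is regular, and the last condition may be replaced by the
  equality of the orders of the products of the generators `ρ_0 ⋯ ρ_{a-1}` and `σ_0 ⋯ σ_{b-1}`;
* if `K` is regular, then every Petrie scheme of `K + K` is acoptic iff every Petrie scheme of `K`
  is acoptic. -/
theorem result {a b : ℕ} (ha : 0 < a) (hb : 0 < b) {F G : Type*} [PartialOrder F]
    [PartialOrder G] {rk : F → Fin a} {sk : G → Fin b} (h1 : IsPolytope rk)
    (h2 : IsPolytope sk) :
    (∃ h : IsPolytope (joinRk rk sk),
      (AllAcoptic h ↔ AllAcoptic h1 ∧ AllAcoptic h2 ∧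
        ∀ L1 L2, IsOrdering L1 → IsOrdering L2 → ∀ (A : ℤ → Flg rk) (B : ℤ → Flg sk),
          IsPetrie h1 L1 A → IsPetrie h2 L2 B → ∀ k l, A k = A l ↔ B k = B l) ∧
      (Petrie.IsRegular rk → Petrie.IsRegular sk → Petrie.IsRegular (joinRk rk sk) ∧
        ∀ (Φ : Flg rk) (ρ : Fin a → F ≃o F) (Φ' : Flg sk) (σ : Fin b → G ≃o G),
          IsGens Φ ρ → IsGens Φ' σ →
          (AllAcoptic h ↔ AllAcoptic h1 ∧ AllAcoptic h2 ∧
            orderOf (listProd ρ (List.finRange a)) = orderOf (listProd σ (List.finRange b))))) ∧
    (∃ h : IsPolytope (joinRk rk rk), Petrie.IsRegular rk →
      Petrie.IsRegular (joinRk rk rk) ∧ (AllAcoptic h ↔ AllAcoptic h1)) := by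
  refine ⟨⟨join_polytope h1 h2, join_acoptic ha hb h1 h2 _, fun r1 r2 =>
    ⟨join_regular r1 r2, fun Φ ρ Φ' σ hρ hσ =>
      join_regular_acoptic ha hb h1 h2 _ r1 r2 hρ hσ⟩⟩,
    ⟨join_polytope h1 h1, fun r1 => ⟨join_regular r1 r1, join_self ha h1 _ r1⟩⟩⟩

end Pool.Agent.Results.MP_6ac48b_co.EntryTwo
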