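import Pool.Agent.Lib.MP_6ac48b_co.ExtMain

/-!
# MP_6ac48b_co, Q1: universal polytopes with an even last entry, over an arbitrary facet

Let `K` be ANY regular polytope of rank `m - 1 ≥ 2` (finite or infinite, of any kind: a Coxeter
polytope, a toroid, a flat polytope, ...) whose last Schläfli entry is not `2`.  For every `q`, and
for `q = ∞`, there is the universal regular polytope `U(K, 2q)` of rank `m` with facets `K` and last
Schläfli entry `2q`: its group has the presentation

  generators `Γ(K) = ⟨ρ_0, …, ρ_{m-2}⟩` and `t = ρ_{m-1}`, relations: those of `Γ(K)`, `t² = 1`,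
  `t` commutes with `ρ_0, …, ρ_{m-3}`, `(ρ_{m-2} t)^{2q} = 1`

(McMullen-Schulte, Abstract Regular Polytopes; existence and presentation are not formalised here.)  It
is the universal polytope `{P_1, P_2}` with `P_1 = K` and `P_2` its vertex-figure, and `P_2` is
`U(vertex-figure of K, 2q)` or a quotient of it.  More generally, `P` is allowed to be any regular
polytope of rank `m` with facets `K` whose group maps onto that of `U(K, 2q)` (by the identity on
`Γ(K)`); this is the case for all universal polytopes `{K, P_2}` such that the group of `P_2` maps in
this way onto that of `U(vertex-figure of K, 2q)`, because `{K, P_2}` is presented by the relations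
of `K`, of `P_2` and `(ρ_0 ρ_{m-1})² = 1`.

The theorem decides for `q ≥ 3` and `q = ∞` (`q = 0` in the statement) when all Petrie schemes of
`P` (all `m!` orderings) are acoptic, by a condition on the facet `K` alone: for every product `c` of
`ρ_0, …, ρ_{m-2}` in any order (the Petrie products of `K`), if a positive power of `c` fixes the base
face `F_i` of rank `i ≤ m - 3`, then `F_i` is not contained in all facets `c^l F_{m-2}` of `K`, i.e.
some facet of `K` met by the Petrie scheme of `F` does not contain `F_i`.

In particular, for finite `K` (where the case `i = 0` implies the others): `P` has only acoptic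
Petrie schemes if and only if no Petrie scheme of `K` stays in the star of one of its own vertices;
this is a finite check in `K`, while `P` is infinite, and `K` itself may have non-acoptic Petrie schemes.
If `K` is finite and flat (every facet contains all vertices), `P` always has non-acoptic Petrie
schemes; such `K` with large entries satisfy the necessary condition which the problem file lists
(no self-intersection within `n + 1` steps), so that this condition is not sufficient.

Idea of the proof.  `Γ(K)` permutes the set `B` of its facets; `B` with the label `q` on the pairs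
`x {F_{m-2}, ρ_{m-2} F_{m-2}}` and `∞` on the other pairs is a Coxeter diagram on which `Γ(K)` acts, and
`P` maps onto the semidirect product with its Coxeter group: `t` acts as the reflection of the facet
`F_{m-2}`.  In the geometric representation all off-diagonal entries are `≤ - cos (π / 3)`.  If
`w = u t v` is a Petrie product and `w^n` lies in the stabiliser of `F_i`, then `w^n` fixes the
`0`-`1`-function of the facets of `K` not containing `F_i`.  A positivity argument along the orbit
(the entries at the reflected coordinate can never return to zero) shows that the function vanishes on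
the whole orbit of `F_{m-2}` under `c = u v`.
-/

set_option autoImplicit false

namespace Pool.Agent.Results.MP_6ac48b_co.EvenExtension

open Petrie

universe u

/-- Let `P` (the poset `F` of proper faces with the rank function `rk`) be a regular polytope of
rank `N + 3`, with base flag `Φ` and distinguished generators `ρ_0, …, ρ_{N+2}`, such that
`ρ_N` and `ρ_{N+1}` do not commute and `Aut P` maps onto the group given by the group of the facet
`K`, one more involution `t`, the relations that `t` commutes with `ρ_0, …, ρ_N`, and
`(ρ_{N+1} t)^{2q} = 1` (no relation for `q = 0`); here `q = 0` or `q ≥ 3`.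

Every Petrie scheme of `P` is acoptic if and only if for every ordering `L` of `0, …, N + 1`, with
`c = ∏_{j ∈ L} ρ_j`, for every `i ≤ N` and every `k > 0` with `c^k F_i = F_i`, the base face `F_i` is not
contained in all the faces `c^l F_{N+1}`, `l ≥ 0` (facets of `K`). -/
theorem result {N : ℕ} {F : Type u} [PartialOrder F] {rk : F → Fin (N + 3)}
    (hP : IsPolytope rk) (hreg : Petrie.IsRegular rk) (Φ : Flg rk) (ρ : Fin (N + 3) → F ≃o F)
    (hρ : IsGens Φ ρ) (q : ℕ) (hq : q = 0 ∨ 3 ≤ q) (hE : IsExtension ρ q)
    (h3 : ρ ⟨N, by omega⟩ * ρ ⟨N + 1, by omega⟩ ≠ ρ ⟨N + 1, by omega⟩ * ρ ⟨N, by omega⟩) :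
    AllAcoptic hP ↔ ∀ L : List (Fin (N + 3)), L.Nodup → (∀ j, j ∈ L ↔ j ≠ Fin.last (N + 2)) →
      ∀ i : Fin (N + 3), (i : ℕ) ≤ N → ∀ k : ℕ, 0 < k → (listProd ρ L ^ k) (Φ.1 i) = Φ.1 i →
        ∃ l : ℕ, ¬ Φ.1 i ≤ (listProd ρ L ^ l) (Φ.1 ⟨N + 1, by omega⟩) := by
  rw [ext_main hq hP hreg hρ hE h3]
  constructor
  · intro h L h1 h2
    exact h L ⟨h1, h2⟩
  · intro h L hL
    exact h L hL.1 hL.2

end Pool.Agent.Results.MP_6ac48b_co.EvenExtension
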